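import Pool.Agent.Helper64.BKA.Stmts

/-!
# Module SRES: restriction and corestriction of Selmer cocycles
-/

set_option autoImplicit false

open scoped Classical

namespace BKA

namespace SRESaux

theorem fin_comap {D Γ : Type} [Group D] [Group Γ] (f : D →* Γ) (N : Subgroup Γ)
    [Finite (Γ ⧸ N)] : Finite (D ⧸ N.comap f) := by
  refine Finite.of_injective (fun q : D ⧸ N.comap f => (QuotientGroup.mk (f q.out) : Γ ⧸ N)) ?_
  intro q q' h
  have h1 : (f q.out)⁻¹ * f q'.out ∈ N := QuotientGroup.eq.1 h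
  have h2 : q.out⁻¹ * q'.out ∈ N.comap f := by
    rw [Subgroup.mem_comap, map_mul, map_inv]
    exact h1
  have h3 : (QuotientGroup.mk q.out : D ⧸ N.comap f) = QuotientGroup.mk q'.out :=
    QuotientGroup.eq.2 h2
  rwa [QuotientGroup.out_eq', QuotientGroup.out_eq'] at h3

theorem out_smul {D Γ : Type} [Group D] [Group Γ] (f : D →* Γ) (N : Subgroup Γ) (g : D)
    (q : D ⧸ N.comap f) : f ((g • q).out⁻¹ * (g * q.out)) ∈ N := by
  have h1 : (QuotientGroup.mk (g • q).out : D ⧸ N.comap f) = QuotientGroup.mk (g * q.out) := by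
    rw [QuotientGroup.out_eq']
    conv_lhs => rw [← QuotientGroup.out_eq' q]
    rfl
  exact QuotientGroup.eq.1 h1

/-- averaging -/
theorem av {k : Type} [Field k] [CharZero k] {D Γ W : Type} [Group D] [Group Γ] [AddCommGroup W]
    [Module k W] (θ : D → W →ₗ[k] W) (f : D →* Γ) (N : Subgroup Γ) [Finite (Γ ⧸ N)]
    (z : D → W) (hz : ∀ g h, z (g * h) = z g + θ g (z h)) (h0 : ∀ m, f m ∈ N → z m = 0) :
    ∃ w, ∀ g, z g = θ g w - w := by
  have := fin_comap f N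
  have : Fintype (D ⧸ N.comap f) := Fintype.ofFinite _
  have hr : (Fintype.card (D ⧸ N.comap f) : k) ≠ 0 :=
    Nat.cast_ne_zero.2 Fintype.card_ne_zero
  have key : ∀ (g : D) (q : D ⧸ N.comap f), z (g * q.out) = z (g • q).out := by
    intro g q
    have h1 : g * q.out = (g • q).out * ((g • q).out⁻¹ * (g * q.out)) := by group
    rw [h1, hz, h0 _ (out_smul f N g q), map_zero, add_zero]
  refine ⟨-((Fintype.card (D ⧸ N.comap f) : k)⁻¹ • ∑ q : D ⧸ N.comap f, z q.out), fun g => ?_⟩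
  have h2 : θ g (∑ q : D ⧸ N.comap f, z q.out) =
      ∑ q : D ⧸ N.comap f, z q.out - (Fintype.card (D ⧸ N.comap f) : k) • z g := by
    rw [map_sum]
    have h3 : ∀ q : D ⧸ N.comap f, θ g (z q.out) = z (g • q).out - z g := by
      intro q
      rw [← key, hz]
      abel
    rw [Finset.sum_congr rfl fun q _ => h3 q, Finset.sum_sub_distrib, Finset.sum_const,
      Finset.card_univ, ← Nat.cast_smul_eq_nsmul k]
    congr 1
    exact Fintype.sum_equiv (MulAction.toPerm g) _ _ fun q => rfl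
  rw [map_neg, map_smul, h2, smul_sub, smul_smul, inv_mul_cancel₀ hr, one_smul]
  abel

variable {k Γ : Type} [Field k] [Group Γ] {d : ℕ} (ρ : Γ →* Matrix.GeneralLinearGroup (Fin d) k)

/-- the action as a linear map -/
noncomputable def L (g : Γ) : (Fin d → k) →ₗ[k] (Fin d → k) :=
  Matrix.mulVecLin ((ρ g : Matrix.GeneralLinearGroup (Fin d) k) : Matrix (Fin d) (Fin d) k)

theorem vec_eq (g : Γ) (v : Fin d → k) : vec ρ g v = L ρ g v := rfl

theorem Lv_mul (g h : Γ) (v : Fin d → k) : L ρ (g * h) v = L ρ g (L ρ h v) := by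
  unfold L
  rw [map_mul, Units.val_mul, Matrix.mulVecLin_mul]
  rfl

theorem Lv_one (v : Fin d → k) : L ρ 1 v = v := by
  unfold L
  rw [map_one, Units.val_one, Matrix.mulVecLin_one]
  rfl

theorem cont_L [TopologicalSpace k] [IsTopologicalRing k] [TopologicalSpace Γ]
    (hρ : Continuous ρ) (v : Fin d → k) : Continuous fun g : Γ => L ρ g v := by
  have h1 : Continuous fun g : Γ =>
      ((ρ g : Matrix.GeneralLinearGroup (Fin d) k) : Matrix (Fin d) (Fin d) k) :=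
    Units.continuous_val.comp hρ
  exact h1.matrix_mulVec continuous_const

end SRESaux

open SRESaux

/-- restriction -/
theorem sres_a {k Γ : Type} [Field k] [TopologicalSpace k] [Group Γ]
    [TopologicalSpace Γ] {d : ℕ}
    (ρ : Γ →* Matrix.GeneralLinearGroup (Fin d) k) (C : Local ρ) (N U : Subgroup Γ)
    (hNU : N ≤ U) (χ : U →* kˣ) (hχ : ∀ n : U, (n : Γ) ∈ N → χ n = 1)
    (c : U → Fin d → k) (hc : IsSel ρ C U χ c) :
    IsSel ρ C N 1 (fun n => c ⟨n, hNU n.2⟩) := by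
  obtain ⟨h1, h2, h3⟩ := hc
  refine ⟨?_, ?_, ?_⟩
  · exact h1.comp (Continuous.subtype_mk continuous_subtype_val _)
  · intro g h
    have h4 := h2 ⟨g, hNU g.2⟩ ⟨h, hNU h.2⟩
    rw [hχ ⟨g, hNU g.2⟩ g.2] at h4
    exact h4
  · intro i γ
    obtain ⟨y, hy⟩ := h3 i γ
    refine ⟨y, fun g h => ?_⟩
    have h4 := hy g (hNU h)
    rw [hχ ⟨γ * g * γ⁻¹, hNU h⟩ h] at h4
    exact h4

/-- injectivity -/
theorem sres_b {k Γ : Type} [Field k] [CharZero k] [Group Γ] {d : ℕ}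
    (ρ : Γ →* Matrix.GeneralLinearGroup (Fin d) k) (N U : Subgroup Γ) [Finite (Γ ⧸ N)]
    (hNU : N ≤ U) (χ : U →* kˣ) (hχ : ∀ n : U, (n : Γ) ∈ N → χ n = 1)
    (c : U → Fin d → k)
    (hc : ∀ g h : U, c (g * h) = c g + ((χ g : kˣ) : k) • vec ρ g (c h))
    (h : IsCob ρ N 1 (fun n => c ⟨n, hNU n.2⟩)) : IsCob ρ U χ c := by
  obtain ⟨v, hv⟩ := h
  obtain ⟨w, hw⟩ := av (fun g : U => ((χ g : kˣ) : k) • L ρ (g : Γ)) U.subtype N
    (fun g => c g - (((χ g : kˣ) : k) • L ρ (g : Γ) v - v)) (by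
      intro g h
      rw [hc, vec_eq, Subgroup.coe_mul, Lv_mul, map_mul, Units.val_mul, mul_comm, mul_smul]
      simp only [LinearMap.smul_apply, map_sub, map_smul]
      abel) (by
      intro m hm
      have h1 := hv ⟨m, hm⟩
      simp only [MonoidHom.one_apply, Units.val_one, one_smul] at h1
      rw [hχ m hm, Units.val_one, one_smul]
      have h2 : c m = L ρ (m : Γ) v - v := h1
      rw [h2, sub_self])
  refine ⟨w + v, fun g => ?_⟩
  have h3 := hw g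
  rw [vec_eq, map_add, smul_add]
  simp only [LinearMap.smul_apply] at h3
  rw [sub_eq_iff_eq_add] at h3
  rw [h3]
  abel

/-- the restriction is an eigenvector -/
theorem sres_c {k Γ : Type} [Field k] [Group Γ] {d : ℕ}
    (ρ : Γ →* Matrix.GeneralLinearGroup (Fin d) k) (N U : Subgroup Γ)
    (hNU : N ≤ U) (χ : U →* kˣ) (hχ : ∀ n : U, (n : Γ) ∈ N → χ n = 1)
    (c : U → Fin d → k)
    (hc : ∀ g h : U, c (g * h) = c g + ((χ g : kˣ) : k) • vec ρ g (c h)) (u : U) :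
    IsCob ρ N 1 (fun n => vec ρ u (c ⟨(u : Γ)⁻¹ * n * u,
        U.mul_mem (U.mul_mem (U.inv_mem u.2) (hNU n.2)) u.2⟩) -
          ((χ u : kˣ) : k)⁻¹ • c ⟨n, hNU n.2⟩) := by
  have h1 : c 1 = 0 := by
    have h2 := hc 1 1
    rw [map_one, Units.val_one, one_smul, mul_one, vec_eq, Subgroup.coe_one, Lv_one] at h2
    simpa using h2
  have hu : c u = -(((χ u : kˣ) : k) • L ρ (u : Γ) (c u⁻¹)) := by
    have h2 := hc u u⁻¹
    rw [mul_inv_cancel, h1, vec_eq] at h2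
    exact eq_neg_of_add_eq_zero_left h2.symm
  have hχ0 : ((χ u : kˣ) : k) ≠ 0 := (χ u).ne_zero
  refine ⟨((χ u : kˣ) : k)⁻¹ • c u, fun n => ?_⟩
  have h3 : (⟨(u : Γ)⁻¹ * n * u, U.mul_mem (U.mul_mem (U.inv_mem u.2) (hNU n.2)) u.2⟩ : U) =
      u⁻¹ * (⟨n, hNU n.2⟩ * u) := by
    ext
    simp [mul_assoc]
  simp only [h3]
  rw [hc u⁻¹, hc ⟨n, hNU n.2⟩, hχ ⟨n, hNU n.2⟩ n.2]
  simp only [Units.val_one, one_smul, vec_eq, map_inv, Units.val_inv_eq_inv_val,
    MonoidHom.one_apply, map_add, map_smul]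
  have h4 : ∀ x : Fin d → k, L ρ (u : Γ) (L ρ ((u⁻¹ : U) : Γ) x) = x := by
    intro x
    rw [← Lv_mul, ← Subgroup.coe_mul, mul_inv_cancel, Subgroup.coe_one, Lv_one]
  rw [h4, h4]
  have h5 : L ρ (u : Γ) (c u⁻¹) = -(((χ u : kˣ) : k)⁻¹ • c u) := by
    conv_rhs => rw [hu, smul_neg, smul_smul, inv_mul_cancel₀ hχ0, one_smul, neg_neg]
  rw [h5]
  simp only [smul_add]
  abel

/-- the extension by a cocycle of a cocycle on `N` satisfies the local conditions -/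
theorem sres_loc {k Γ : Type} [Field k] [CharZero k] [Group Γ] {d : ℕ}
    (ρ : Γ →* Matrix.GeneralLinearGroup (Fin d) k) (C : Local ρ) (N U : Subgroup Γ)
    [Finite (Γ ⧸ N)] (hNU : N ≤ U) (χ : U →* kˣ) (hχ : ∀ n : U, (n : Γ) ∈ N → χ n = 1)
    (c : N → Fin d → k) (c' : U → Fin d → k) (v₀ : Fin d → k)
    (hcoc : ∀ g h : U, c' (g * h) = c' g + ((χ g : kˣ) : k) • L ρ g (c' h))
    (hN : ∀ n : N, c' ⟨n, hNU n.2⟩ = c n + (L ρ (n : Γ) v₀ - v₀))
    (i : C.I) (γ : Γ) (y₁ : C.W i)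
    (hy₁ : ∀ (g : C.D i) (h : γ * g * γ⁻¹ ∈ N), C.j i (L ρ γ⁻¹ (c ⟨γ * g * γ⁻¹, h⟩)) =
      C.act i g y₁ - y₁) :
    ∃ y : C.W i, ∀ (g : C.D i) (h : γ * g * γ⁻¹ ∈ U),
      C.j i (L ρ γ⁻¹ (c' ⟨γ * g * γ⁻¹, h⟩)) =
        ((χ ⟨γ * g * γ⁻¹, h⟩ : kˣ) : k) • C.act i g y - y := by
  have hj : ∀ (g : C.D i) (x : Fin d → k),
      C.j i (L ρ γ⁻¹ (L ρ (γ * g * γ⁻¹) x)) = C.act i g (C.j i (L ρ γ⁻¹ x)) := by
    intro g x
    have h1 := C.equiv i g (L ρ γ⁻¹ x)
    rw [← h1]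
    have h2 : L ρ γ⁻¹ (L ρ (γ * g * γ⁻¹) x) = L ρ (g : Γ) (L ρ γ⁻¹ x) := by
      rw [← Lv_mul, ← Lv_mul]
      congr 2
      group
    rw [h2]
    rfl
  obtain ⟨yN, hyN⟩ : ∃ yN : C.W i, yN = y₁ + C.j i (L ρ γ⁻¹ v₀) := ⟨_, rfl⟩
  have hcN : ∀ (g : C.D i) (h : γ * g * γ⁻¹ ∈ N),
      C.j i (L ρ γ⁻¹ (c' ⟨γ * g * γ⁻¹, hNU h⟩)) = C.act i g yN - yN := by
    intro g h
    have h1 := hN ⟨γ * g * γ⁻¹, h⟩
    rw [h1, map_add, map_add, hy₁ g h, map_sub, map_sub, hj g v₀, hyN, map_add]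
    abel
  obtain ⟨DU, hDU⟩ : ∃ DU : Subgroup (C.D i),
      DU = (U.comap (MulAut.conj γ).toMonoidHom).comap (C.D i).subtype := ⟨_, rfl⟩
  have hmem : ∀ g : C.D i, g ∈ DU ↔ γ * g * γ⁻¹ ∈ U := by
    intro g
    rw [hDU]
    exact Iff.rfl
  let f : DU →* Γ := (MulAut.conj γ).toMonoidHom.comp ((C.D i).subtype.comp DU.subtype)
  let e : DU →* U := f.codRestrict U fun g => (hmem g.1).1 g.2
  have he : ∀ g : DU, ((e g : U) : Γ) = γ * (g.1 : Γ) * γ⁻¹ := fun g => rfl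
  obtain ⟨w, hw⟩ := av (fun g : DU => ((χ (e g) : kˣ) : k) • C.act i g.1) f N
    (fun g => C.j i (L ρ γ⁻¹ (c' (e g))) - (((χ (e g) : kˣ) : k) • C.act i g.1 yN - yN)) (by
      intro g h
      have h1 := hj g.1 (c' (e h))
      rw [← he] at h1
      rw [map_mul e, hcoc, map_add, map_add, map_smul, map_smul, h1, map_mul, Units.val_mul,
        mul_comm, mul_smul]
      simp only [LinearMap.smul_apply, map_sub, map_smul, Subgroup.coe_mul, map_mul,
        Module.End.mul_apply]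
      rw [smul_comm ((χ (e h) : kˣ) : k) ((χ (e g) : kˣ) : k)]
      abel) (by
      intro m hm
      have h1 := hcN m.1 hm
      have h2 : χ (e m) = 1 := hχ (e m) hm
      rw [h2, Units.val_one, one_smul]
      have h3 : c' (e m) = c' ⟨γ * (m.1 : Γ) * γ⁻¹, hNU hm⟩ := rfl
      rw [h3, h1, sub_self])
  refine ⟨yN + w, fun g h => ?_⟩
  have h1 := hw ⟨g, (hmem g).2 h⟩
  simp only [LinearMap.smul_apply] at h1
  rw [sub_eq_iff_eq_add] at h1
  have h2 : e ⟨g, (hmem g).2 h⟩ = ⟨γ * g * γ⁻¹, h⟩ := rfl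
  rw [h2] at h1
  rw [h1, map_add, smul_add]
  abel

/-- corestriction -/
theorem sres_d {k Γ : Type} [Field k] [CharZero k] [TopologicalSpace k] [IsTopologicalRing k]
    [Group Γ] [TopologicalSpace Γ] [IsTopologicalGroup Γ] {d : ℕ}
    (ρ : Γ →* Matrix.GeneralLinearGroup (Fin d) k) (C : Local ρ) (N U : Subgroup Γ) [N.Normal]
    [Finite (Γ ⧸ N)] (hNU : N ≤ U) (χ : U →* kˣ) (hρ : Continuous ρ)
    (hopen : IsOpen (N : Set Γ)) (hχ : ∀ n : U, (n : Γ) ∈ N → χ n = 1)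
    (c : N → Fin d → k) (hc : IsSel ρ C N 1 c)
    (heig : ∀ u : U, ∃ v : Fin d → k, ∀ (n : N) (h : (u : Γ)⁻¹ * n * u ∈ N),
      L ρ u (c ⟨(u : Γ)⁻¹ * n * u, h⟩) - ((χ u : kˣ) : k)⁻¹ • c n = L ρ (n : Γ) v - v) :
    ∃ c' : U → Fin d → k, IsSel ρ C U χ c' ∧
      IsCob ρ N 1 (fun n => c' ⟨n, hNU n.2⟩ - c n) := by
  obtain ⟨hc1, hc2, hc3⟩ := hc
  have hc2' : ∀ g h : N, c (g * h) = c g + L ρ (g : Γ) (c h) := by
    intro g h
    have h1 := hc2 g h
    simp only [MonoidHom.one_apply, Units.val_one, one_smul] at h1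
    exact h1
  obtain ⟨cU, hcU⟩ : ∃ cU : U → Fin d → k, ∀ (x : U) (h : (x : Γ) ∈ N), cU x = c ⟨x, h⟩ :=
    ⟨fun x => if h : (x : Γ) ∈ N then c ⟨x, h⟩ else 0, fun x h => dif_pos h⟩
  have cU_mul : ∀ x y : U, (x : Γ) ∈ N → (y : Γ) ∈ N →
      cU (x * y) = cU x + L ρ (x : Γ) (cU y) := by
    intro x y hx hy
    rw [hcU x hx, hcU y hy, hcU (x * y) (N.mul_mem hx hy)]
    exact hc2' ⟨x, hx⟩ ⟨y, hy⟩
  have := fin_comap U.subtype N
  have : Fintype (U ⧸ N.comap U.subtype) := Fintype.ofFinite _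
  obtain ⟨r, hrdef⟩ : ∃ r : k, r = (Fintype.card (U ⧸ N.comap U.subtype) : k) := ⟨_, rfl⟩
  have hr : r ≠ 0 := by
    rw [hrdef]
    exact Nat.cast_ne_zero.2 Fintype.card_ne_zero
  obtain ⟨t, ht⟩ : ∃ t : U → (U ⧸ N.comap U.subtype) → Fin d → k, ∀ g q, t g q =
      ((χ (g • q).out : kˣ) : k) • L ρ ((g • q).out : U) (cU ((g • q).out⁻¹ * (g * q.out))) :=
    ⟨fun g q => _, fun g q => rfl⟩
  have htt : ∀ (g h : U) (q : U ⧸ N.comap U.subtype),
      t (g * h) q = t g (h • q) + ((χ g : kˣ) : k) • L ρ (g : Γ) (t h q) := by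
    intro g h q
    have ha := out_smul U.subtype N g (h • q)
    have hb := out_smul U.subtype N h q
    rw [ht, ht, ht, mul_smul]
    have h1 : (g • h • q).out⁻¹ * (g * h * q.out) =
        ((g • h • q).out⁻¹ * (g * (h • q).out)) * ((h • q).out⁻¹ * (h * q.out)) := by group
    have h2 : χ (g • h • q).out = χ g * χ (h • q).out := by
      have h3 : χ ((g • h • q).out⁻¹ * (g * (h • q).out)) = 1 := hχ _ ha
      rw [map_mul, map_inv, map_mul] at h3
      exact (inv_mul_eq_one.1 h3)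
    rw [h1, cU_mul _ _ ha hb, map_add, smul_add]
    congr 1
    have h4 : ((g • h • q).out : Γ) * (((g • h • q).out⁻¹ * (g * (h • q).out) : U) : Γ) =
        (g : Γ) * ((h • q).out : Γ) := by
      rw [← Subgroup.coe_mul, ← Subgroup.coe_mul]
      congr 1
      group
    rw [← Lv_mul, h4, Lv_mul, h2, Units.val_mul, mul_smul, map_smul]
  obtain ⟨c', hc'⟩ : ∃ c' : U → Fin d → k, ∀ g, c' g =
      r⁻¹ • ∑ q : U ⧸ N.comap U.subtype, t g q := ⟨fun g => _, fun g => rfl⟩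
  have hcoc : ∀ g h : U, c' (g * h) = c' g + ((χ g : kˣ) : k) • L ρ g (c' h) := by
    intro g h
    rw [hc', hc', hc', Finset.sum_congr rfl fun q _ => htt g h q, Finset.sum_add_distrib,
      smul_add, ← Finset.smul_sum, map_smul, map_sum, smul_comm]
    congr 2
    exact Fintype.sum_equiv (MulAction.toPerm h) _ _ fun q => rfl
  choose v hv using heig
  obtain ⟨v₀, hv₀⟩ : ∃ v₀ : Fin d → k, v₀ =
      r⁻¹ • ∑ q : U ⧸ N.comap U.subtype, ((χ q.out : kˣ) : k) • v q.out := ⟨_, rfl⟩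
  have hfix : ∀ (n : U) (_ : (n : Γ) ∈ N) (q : U ⧸ N.comap U.subtype), n • q = q := by
    intro n hn q
    conv_rhs => rw [← QuotientGroup.out_eq' q]
    conv_lhs => rw [← QuotientGroup.out_eq' q]
    change (QuotientGroup.mk (n * q.out) : U ⧸ N.comap U.subtype) = _
    rw [QuotientGroup.eq, Subgroup.mem_comap]
    have h1 := ‹N.Normal›.conj_mem _ (N.inv_mem hn) ((q.out : U) : Γ)⁻¹
    have h2 : U.subtype ((n * q.out)⁻¹ * q.out) =
        ((q.out : U) : Γ)⁻¹ * (n : Γ)⁻¹ * (((q.out : U) : Γ)⁻¹)⁻¹ := by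
      simp
    rw [h2]
    exact h1
  have hN : ∀ n : N, c' ⟨n, hNU n.2⟩ = c n + (L ρ (n : Γ) v₀ - v₀) := by
    intro n
    have h1 : ∀ q : U ⧸ N.comap U.subtype, t ⟨n, hNU n.2⟩ q =
        c n + (L ρ (n : Γ) (((χ q.out : kˣ) : k) • v q.out) - ((χ q.out : kˣ) : k) • v q.out) := by
      intro q
      have h2 : (((q.out)⁻¹ * (⟨n, hNU n.2⟩ * q.out) : U) : Γ) ∈ N := by
        have h3 := out_smul U.subtype N ⟨n, hNU n.2⟩ q
        rw [hfix ⟨n, hNU n.2⟩ n.2 q] at h3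
        exact h3
      have h5 : ((q.out : U) : Γ)⁻¹ * n * ((q.out : U) : Γ) ∈ N := by
        have h3 : (((q.out)⁻¹ * (⟨n, hNU n.2⟩ * q.out) : U) : Γ) =
            ((q.out : U) : Γ)⁻¹ * n * ((q.out : U) : Γ) := by simp [mul_assoc]
        rw [← h3]
        exact h2
      have h6 : c ⟨(((q.out)⁻¹ * (⟨n, hNU n.2⟩ * q.out) : U) : Γ), h2⟩ =
          c ⟨((q.out : U) : Γ)⁻¹ * n * ((q.out : U) : Γ), h5⟩ := by
        congr 1
        ext
        simp [mul_assoc]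
      have h4 := hv q.out n h5
      rw [sub_eq_iff_eq_add] at h4
      rw [ht, hfix ⟨n, hNU n.2⟩ n.2 q, hcU _ h2, h6, h4, smul_add, smul_smul,
        mul_inv_cancel₀ (χ q.out).ne_zero, one_smul, map_smul, smul_sub]
      abel
    rw [hc', Finset.sum_congr rfl fun q _ => h1 q, Finset.sum_add_distrib, Finset.sum_const,
      Finset.card_univ, ← Nat.cast_smul_eq_nsmul k, ← hrdef, Finset.sum_sub_distrib, ← map_sum,
      smul_add, smul_smul, inv_mul_cancel₀ hr, one_smul, smul_sub, ← map_smul, ← hv₀]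
  refine ⟨c', ⟨?_, ?_, ?_⟩, ?_⟩
  · -- continuity
    have hUo : IsOpen (U : Set Γ) := Subgroup.isOpen_mono hNU hopen
    have hι : Topology.IsOpenEmbedding fun n : N => (⟨n, hNU n.2⟩ : U) := by
      refine Topology.IsOpenEmbedding.of_comp _ hUo.isOpenEmbedding_subtypeVal ?_
      exact hopen.isOpenEmbedding_subtypeVal
    have h1 : ContinuousAt c' 1 := by
      have h2 : Continuous (c' ∘ fun n : N => (⟨n, hNU n.2⟩ : U)) := by
        have h3 : (c' ∘ fun n : N => (⟨n, hNU n.2⟩ : U)) =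
            fun n : N => c n + (L ρ (n : Γ) v₀ - v₀) := funext hN
        rw [h3]
        exact hc1.add (((cont_L ρ hρ v₀).comp continuous_subtype_val).sub continuous_const)
      exact hι.continuousAt_iff.1 (h2.continuousAt (x := 1))
    rw [continuous_iff_continuousAt]
    intro g₀
    have h4 : c' = fun g => c' g₀ + ((χ g₀ : kˣ) : k) • L ρ (g₀ : Γ) (c' (g₀⁻¹ * g)) := by
      funext g
      rw [← hcoc]
      congr 1
      group
    rw [h4]
    have h5 : ContinuousAt (fun g : U => c' (g₀⁻¹ * g)) g₀ := by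
      have h6 : ContinuousAt c' (g₀⁻¹ * g₀) := by rwa [inv_mul_cancel]
      exact h6.comp (f := fun g : U => g₀⁻¹ * g)
        ((continuous_const.mul continuous_id).continuousAt)
    have h7 : Continuous fun x : Fin d → k => L ρ (g₀ : Γ) x :=
      continuous_const.matrix_mulVec continuous_id
    have h8 : ContinuousAt (fun g : U => L ρ (g₀ : Γ) (c' (g₀⁻¹ * g))) g₀ :=
      h7.continuousAt.comp h5
    have h9 : ContinuousAt
        (fun g : U => ((χ g₀ : kˣ) : k) • L ρ (g₀ : Γ) (c' (g₀⁻¹ * g))) g₀ :=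
      h8.const_smul ((χ g₀ : kˣ) : k)
    exact continuousAt_const.add h9
  · intro g h
    exact hcoc g h
  · intro i γ
    obtain ⟨y₁, hy₁⟩ := hc3 i γ
    refine sres_loc ρ C N U hNU χ hχ c c' v₀ hcoc hN i γ y₁ fun g h => ?_
    have h1 := hy₁ g h
    simp only [MonoidHom.one_apply, Units.val_one, one_smul] at h1
    exact h1
  · refine ⟨v₀, fun n => ?_⟩
    have h1 := hN n
    simp only [MonoidHom.one_apply, Units.val_one, one_smul, vec_eq]
    rw [h1]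
    abel

theorem st_SRES : ST_SRES := by
  intro k Γ _ _ _ _ _ _ _ d ρ C N U _ _ hNU χ hρ hopen hχ
  refine ⟨fun c hc => ⟨sres_a ρ C N U hNU χ hχ c hc, fun h => sres_b ρ N U hNU χ hχ c hc.2.1 h,
    fun u => sres_c ρ N U hNU χ hχ c hc.2.1 u⟩, fun c hc heig => ?_⟩
  refine sres_d ρ C N U hNU χ hρ hopen hχ c hc fun u => ?_
  obtain ⟨v, hv⟩ := heig u
  refine ⟨v, fun n h => ?_⟩
  have h1 := hv n
  simp only [MonoidHom.one_apply, Units.val_one, one_smul] at h1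
  exact h1

end BKA
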